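import Pool.Agent.H85.LK.Targets

/-! CNV of the board lk_modules: balls maximise `Phi`. -/

set_option autoImplicit false

open MeasureTheory Metric Set ProbabilityTheory
open scoped ENNReal

namespace Pool.Agent.H81.LK

open Pool.Agent.H85.LK

private theorem it_facts (hHK : T_HK) (hINT : T_INT) {N : ℕ} {s : ℝ} (hs : 0 < s) {A : Set (E N)}
    (hA : MeasurableSet A) (hAb : Bornology.IsBounded A) (m : ℕ) :
    Measurable (it N s A m) ∧ (∀ x, |it N s A m x| ≤ 1) ∧ (∀ x, x ∉ A → it N s A m x = 0) ∧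
      ∀ x, 0 ≤ it N s A m x := by
  induction m with
  | zero =>
    refine ⟨measurable_const.indicator hA, fun x => ?_, fun x hx => ?_, fun x => ?_⟩
    · show |A.indicator (fun _ => (1 : ℝ)) x| ≤ 1
      by_cases hx : x ∈ A
      · rw [indicator_of_mem hx, abs_one]
      · rw [indicator_of_notMem hx, abs_zero]
        exact zero_le_one
    · exact indicator_of_notMem hx _
    · exact indicator_nonneg (fun _ _ => zero_le_one) x
  | succ m ih =>
    obtain ⟨h1, h2, h3, h4⟩ := ih
    have hBd : Bd A (it N s A m) := ⟨h1, ⟨1, h2⟩, h3⟩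
    obtain ⟨-, -, -, -, -, -, hm, -, hb, -, -⟩ := hINT N s A _ _ hs hA hAb hBd hBd
    have h5 : ∀ x, |sm N s (it N s A m) x| ≤ 1 := hb 1 h2
    have h6 : ∀ x, 0 ≤ sm N s (it N s A m) x := fun x =>
      integral_nonneg fun y => mul_nonneg ((hHK N s hs).1 _).le (h4 y)
    refine ⟨hm.indicator hA, fun x => ?_, fun x hx => ?_, fun x => ?_⟩
    · show |A.indicator (sm N s (it N s A m)) x| ≤ 1
      by_cases hx : x ∈ A
      · rw [indicator_of_mem hx]
        exact h5 x
      · rw [indicator_of_notMem hx, abs_zero]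
        exact zero_le_one
    · exact indicator_of_notMem hx _
    · exact indicator_nonneg (fun x _ => h6 x) x

private theorem it_bd (hHK : T_HK) (hINT : T_INT) {N : ℕ} {s : ℝ} (hs : 0 < s) {A : Set (E N)}
    (hA : MeasurableSet A) (hAb : Bornology.IsBounded A) (m : ℕ) : Bd A (it N s A m) := by
  obtain ⟨h1, h2, h3, -⟩ := it_facts hHK hINT hs hA hAb m
  exact ⟨h1, ⟨1, h2⟩, h3⟩

private theorem bd_mono {N : ℕ} {A B : Set (E N)} (hAB : A ⊆ B) {v : E N → ℝ} (h : Bd A v) :
    Bd B v := ⟨h.1, h.2.1, fun x hx => h.2.2 x fun hxA => hx (hAB hxA)⟩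

private theorem it_mono (hHK : T_HK) (hINT : T_INT) {N : ℕ} {s : ℝ} (hs : 0 < s) {A B : Set (E N)}
    (hA : MeasurableSet A) (hB : MeasurableSet B) (hBb : Bornology.IsBounded B) (hAB : A ⊆ B)
    (m : ℕ) (x : E N) : it N s A m x ≤ it N s B m x := by
  have hAb : Bornology.IsBounded A := hBb.subset hAB
  induction m generalizing x with
  | zero =>
    show A.indicator (fun _ => (1 : ℝ)) x ≤ B.indicator (fun _ => 1) x
    exact indicator_le_indicator_of_subset hAB (fun _ => zero_le_one) x
  | succ m ih =>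
    show A.indicator (sm N s (it N s A m)) x ≤ B.indicator (sm N s (it N s B m)) x
    by_cases hx : x ∈ A
    · rw [indicator_of_mem hx, indicator_of_mem (hAB hx)]
      have i1 := (hINT N s B _ _ hs hB hBb (bd_mono hAB (it_bd hHK hINT hs hA hAb m))
        (bd_mono hAB (it_bd hHK hINT hs hA hAb m))).2.2.2.2.2.2.2.2.2.1 x
      have i2 := (hINT N s B _ _ hs hB hBb (it_bd hHK hINT hs hB hBb m)
        (it_bd hHK hINT hs hB hBb m)).2.2.2.2.2.2.2.2.2.1 x
      exact integral_mono i1 i2 fun y =>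
        mul_le_mul_of_nonneg_left (ih y) ((hHK N s hs).1 _).le
    · rw [indicator_of_notMem hx]
      exact (it_facts hHK hINT hs hB hBb (m + 1)).2.2.2 x

private theorem it_int (hHK : T_HK) (hINT : T_INT) {N : ℕ} {s : ℝ} (hs : 0 < s) {A : Set (E N)}
    (hA : MeasurableSet A) (hAb : Bornology.IsBounded A) (m : ℕ) : Integrable (it N s A m) :=
  (hINT N s A _ _ hs hA hAb (it_bd hHK hINT hs hA hAb m)
    (it_bd hHK hINT hs hA hAb m)).2.2.2.1

private theorem Phi_mono (hHK : T_HK) (hINT : T_INT) {N : ℕ} {s : ℝ} (hs : 0 < s)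
    {A B : Set (E N)} (hA : MeasurableSet A) (hB : MeasurableSet B)
    (hBb : Bornology.IsBounded B) (hAB : A ⊆ B) (m : ℕ) : Phi N s A m ≤ Phi N s B m :=
  integral_mono (it_int hHK hINT hs hA (hBb.subset hAB) m) (it_int hHK hINT hs hB hBb m)
    (it_mono hHK hINT hs hA hB hBb hAB m)

/-- two sets of equal finite volume -/
private theorem symm_eq {N : ℕ} {A B : Set (E N)} (hA : MeasurableSet A) (hB : MeasurableSet B)
    (hBf : volume B ≠ ∞) (h : volume A = volume B) :
    volume.real (symmDiff A B) = 2 * volume.real (A \ B) := by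
  have hAf : volume A ≠ ∞ := by rw [h]; exact hBf
  have h1 := measureReal_symmDiff_eq (μ := volume) hA hB hAf hBf
  have h2 := measureReal_sdiff_add_inter (μ := volume) (s := A) hB hAf
  have h3 := measureReal_sdiff_add_inter (μ := volume) (s := B) hA hBf
  have h4 : volume.real A = volume.real B := by rw [Measure.real, Measure.real, h]
  rw [inter_comm] at h3
  rw [h1]
  linarith

private theorem cnv_eq (hPOL : T_POL) (hPVO : T_PVO) (hGRD : T_GRD)
    (hCNT : T_CNT) {N : ℕ} {s r : ℝ} {A : Set (E N)} {m : ℕ} (hN : 1 ≤ N) (hs : 0 < s)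
    (hr : 0 < r) (hA : MeasurableSet A) (hAb : Bornology.IsBounded A)
    (hv : volume A = volume (ball (0 : E N) r)) : Phi N s A m ≤ Phi N s (ball 0 r) m := by
  obtain ⟨ρ₀, hρ₀⟩ := hAb.subset_ball (0 : E N)
  set ρ := max ρ₀ r with hρ
  have hrρ : r ≤ ρ := le_max_right _ _
  have hAρ : A ⊆ ball 0 ρ := hρ₀.trans (ball_subset_ball (le_max_left _ _))
  obtain ⟨c, hc, hstep⟩ := hGRD N ρ hN (hr.trans_le hrρ)
  have hbf : volume (ball (0 : E N) r) ≠ ∞ := measure_ball_lt_top.ne
  have hsmall : ∀ ε : ℝ, 0 < ε → ∃ A' : Set (E N), MeasurableSet A' ∧ A' ⊆ ball 0 ρ ∧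
      volume A' = volume (ball (0 : E N) r) ∧ Phi N s A m ≤ Phi N s A' m ∧
      volume.real (A' \ ball 0 r) ≤ ε := by
    intro ε hε
    by_contra hcon
    push Not at hcon
    have hind : ∀ n : ℕ, ∃ A' : Set (E N), MeasurableSet A' ∧ A' ⊆ ball 0 ρ ∧
        volume A' = volume (ball (0 : E N) r) ∧ Phi N s A m ≤ Phi N s A' m ∧
        volume.real (A' \ ball 0 r) ≤ volume.real (A \ ball 0 r) - n * (c * ε ^ 2) := by
      intro n
      induction n with
      | zero => exact ⟨A, hA, hAρ, hv, le_rfl, by simp⟩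
      | succ n ih =>
        obtain ⟨A₁, h1, h2, h3, h4, h5⟩ := ih
        obtain ⟨e, h, he, hh, h6⟩ := hstep r A₁ hr hrρ h1 h2 h3
        obtain ⟨h7, h8, h9⟩ := hPVO N e h ρ A₁ he hh h1 h2
        have h10 := hcon A₁ h1 h2 h3 h4
        have hA₁b : Bornology.IsBounded A₁ := isBounded_ball.subset h2
        refine ⟨pol e h A₁, h7, h8, h9.trans h3, h4.trans (hPOL N s e h A₁ m hs he hh h1 hA₁b),
          h6.trans ?_⟩
        have h11 : ε ^ 2 ≤ volume.real (A₁ \ ball 0 r) ^ 2 := pow_le_pow_left₀ hε.le h10.le 2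
        have h12 := mul_le_mul_of_nonneg_left h11 hc.le
        push_cast
        linarith
    obtain ⟨n, hn⟩ := exists_nat_gt (volume.real (A \ ball (0 : E N) r) / (c * ε ^ 2))
    have hce : 0 < c * ε ^ 2 := by positivity
    rw [div_lt_iff₀ hce] at hn
    obtain ⟨A', -, -, -, -, h5⟩ := hind n
    have h6 : 0 ≤ volume.real (A' \ ball (0 : E N) r) := measureReal_nonneg
    linarith
  refine le_of_forall_pos_le_add fun δ hδ => ?_
  have hm : (0 : ℝ) < 2 * (m + 1) := by positivity
  obtain ⟨A', h1, h2, h3, h4, h5⟩ := hsmall (δ / (2 * (m + 1))) (by positivity)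
  have h6 := hCNT N s A' (ball 0 r) m hs h1 measurableSet_ball (isBounded_ball.subset h2)
    isBounded_ball
  rw [symm_eq h1 measurableSet_ball hbf h3] at h6
  have h7 := (abs_le.1 h6).2
  rw [le_div_iff₀ hm] at h5
  have h8 : ((m : ℝ) + 1) * (2 * volume.real (A' \ ball (0 : E N) r)) ≤ δ := by linarith
  linarith

theorem cnv (hHK : T_HK) (hINT : T_INT) (hPOL : T_POL) (hPVO : T_PVO) (hGRD : T_GRD)
    (hCNT : T_CNT) : T_CNV := by
  intro N s r A m hN hs hr hA hAb hv
  have hbf : volume (ball (0 : E N) r) ≠ ∞ := measure_ball_lt_top.ne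
  have : Nonempty (Fin N) := ⟨⟨0, hN⟩⟩
  rcases eq_or_ne (volume A) 0 with h0 | h0
  · have h1 : Phi N s A m = 0 := by
      refine integral_eq_zero_of_ae ?_
      have h2 : ∀ᵐ x, x ∉ A := by
        rw [ae_iff]
        simpa using h0
      filter_upwards [h2] with x hx
      exact (it_facts hHK hINT hs hA hAb m).2.2.1 x hx
    rw [h1]
    exact integral_nonneg (it_facts hHK hINT hs measurableSet_ball isBounded_ball m).2.2.2
  · have hAf : volume A ≠ ∞ := ne_top_of_le_ne_top hbf hv
    have hb1 : 0 < volume.real (ball (0 : E N) 1) :=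
      ENNReal.toReal_pos (measure_ball_pos _ _ zero_lt_one).ne' measure_ball_lt_top.ne
    have hV : 0 < volume.real A := ENNReal.toReal_pos h0 hAf
    have hball : ∀ t : ℝ, 0 < t → volume (ball (0 : E N) t) =
        ENNReal.ofReal (t ^ N) * volume (ball (0 : E N) 1) := by
      intro t ht
      have := Measure.addHaar_ball (volume : Measure (E N)) (0 : E N) ht.le
      rwa [finrank_euclideanSpace, Fintype.card_fin] at this
    set q := volume.real A / volume.real (ball (0 : E N) 1) with hq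
    have hq0 : 0 < q := div_pos hV hb1
    have hN0 : (N : ℝ) ≠ 0 := by exact_mod_cast (by omega : N ≠ 0)
    set r' := q ^ ((N : ℝ)⁻¹) with hr'
    have hr'0 : 0 < r' := Real.rpow_pos_of_pos hq0 _
    have hr'N : r' ^ N = q := by
      rw [hr', ← Real.rpow_natCast, ← Real.rpow_mul hq0.le, inv_mul_cancel₀ hN0, Real.rpow_one]
    have hvol : volume A = volume (ball (0 : E N) r') := by
      rw [hball r' hr'0, hr'N, ← ENNReal.ofReal_toReal hAf]
      have h2 : volume (ball (0 : E N) 1) = ENNReal.ofReal (volume.real (ball (0 : E N) 1)) :=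
        (ENNReal.ofReal_toReal measure_ball_lt_top.ne).symm
      rw [h2, ← ENNReal.ofReal_mul hq0.le, hq, div_mul_cancel₀ _ hb1.ne']
      rfl
    have hrr : r' ≤ r := by
      by_contra hlt
      push Not at hlt
      have h3 : r ^ N < r' ^ N := pow_lt_pow_left₀ hlt hr.le (by omega)
      have h4 : volume (ball (0 : E N) r) < volume (ball (0 : E N) r') := by
        rw [hball r hr, hball r' hr'0]
        refine ENNReal.mul_lt_mul_left (measure_ball_pos _ _ zero_lt_one).ne'
          measure_ball_lt_top.ne ?_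
        exact (ENNReal.ofReal_lt_ofReal_iff (by positivity)).2 h3
      rw [hvol] at hv
      exact absurd hv (not_le.2 h4)
    exact (cnv_eq hPOL hPVO hGRD hCNT hN hs hr'0 hA hAb hvol).trans
      (Phi_mono hHK hINT hs measurableSet_ball measurableSet_ball isBounded_ball
        (ball_subset_ball hrr) m)

end Pool.Agent.H81.LK
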