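import Pool.Agent.H85.LK.Targets

/-! MEA of the board lk_modules: measurability of the fields. -/

set_option autoImplicit false

open MeasureTheory Metric Set ProbabilityTheory
open scoped ENNReal

namespace Pool.Agent.H81.LK

open Pool.Agent.H85.LK

private theorem mq {N n : ℕ} {Ψ : E N → E n} (hΨm : Measurable Ψ) :
    Measurable fun p : E n × E N => (inner ℝ p.1 (Ψ p.2) : ℝ) / ‖Ψ p.2‖ := by
  have hΨ2 : Measurable fun p : E n × E N => Ψ p.2 := hΨm.comp measurable_snd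
  exact (measurable_fst.inner hΨ2).div hΨ2.norm

private theorem mGG {N n : ℕ} {b l : ℝ} {Ψ : E N → E n} (hΨm : Measurable Ψ)
    (hcm : Measurable (chi b l)) :
    Measurable (fun p : E n × E N => GG b l p.1 (Ψ p.2)) := by
  have hΨ2 : Measurable fun p : E n × E N => Ψ p.2 := hΨm.comp measurable_snd
  exact hΨ2.norm.mul (hcm.comp (mq hΨm))

private theorem mreg {N n : ℕ} {b : ℝ} {Ψ : E N → E n} (hΨm : Measurable Ψ) :
    MeasurableSet {p : E n × E N | p.2 ∈ reg b Ψ p.1} := by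
  have hΨ2 : Measurable fun p : E n × E N => Ψ p.2 := hΨm.comp measurable_snd
  have h1 : MeasurableSet {p : E n × E N | Ψ p.2 ≠ 0} :=
    hΨ2 (measurableSet_singleton (0 : E n)).compl
  have h2 : MeasurableSet {p : E n × E N | b < (inner ℝ p.1 (Ψ p.2) : ℝ) / ‖Ψ p.2‖} :=
    measurableSet_lt measurable_const (mq hΨm)
  exact h1.inter h2

private theorem bGG {N n : ℕ} {b l M K : ℝ} {Ψ : E N → E n} (hM : ∀ x, ‖Ψ x‖ ≤ M)
    (hc0 : ∀ z, 0 ≤ chi b l z) (hK : ∀ z, chi b l z ≤ K) (c : E n) (x : E N) :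
    |GG b l c (Ψ x)| ≤ M * K := by
  have hM' : 0 ≤ M := (norm_nonneg _).trans (hM x)
  have e : GG b l c (Ψ x) = ‖Ψ x‖ * chi b l (inner ℝ c (Ψ x) / ‖Ψ x‖) := rfl
  rw [e, abs_of_nonneg (mul_nonneg (norm_nonneg _) (hc0 _))]
  exact mul_le_mul (hM x) (hK _) (hc0 _) hM'

private theorem zGG {N n : ℕ} {b l : ℝ} {Ψ : E N → E n}
    (hcs : ∀ z, chi b l z ≠ 0 → b < z ∧ z < b + l) (c : E n) (x : E N) (hx : x ∉ reg b Ψ c) :
    GG b l c (Ψ x) = 0 := by
  by_contra hne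
  apply hx
  have e : GG b l c (Ψ x) = ‖Ψ x‖ * chi b l (inner ℝ c (Ψ x) / ‖Ψ x‖) := rfl
  rw [e] at hne
  have hne1 : ‖Ψ x‖ ≠ 0 := left_ne_zero_of_mul hne
  have hne2 := right_ne_zero_of_mul hne
  exact ⟨norm_ne_zero_iff.1 hne1, (hcs _ hne2).1⟩

theorem mea (hCHP : T_CHP) : T_MEA := by
  intro N n b l A Ψ hb hl hA hΨ
  have hC := hCHP b l hb hl
  have hcm := hC.1
  have hc0 := hC.2.2.1
  have hcs := hC.2.2.2.1
  obtain ⟨K, hK⟩ := hC.2.2.2.2.1
  have hΨm : Measurable Ψ := hΨ.1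
  obtain ⟨M, hM⟩ := hΨ.2.1
  have h1 := mGG (N := N) (n := n) hΨm hcm
  have h2 : ∀ (c : E n) (x : E N), |GG b l c (Ψ x)| ≤ M * K :=
    fun c x => bGG hM hc0 (fun z => (hK z).1) c x
  have h4 := mreg (b := b) hΨm
  have h5 : ∀ c : E n, MeasurableSet (reg b Ψ c) := fun c =>
    (measurable_prodMk_left (x := c)) h4
  have h6 : ∀ c : E n, reg b Ψ c ⊆ A := by
    intro c x hx
    by_contra hxA
    exact hx.1 (hΨ.2.2 x hxA)
  have h7 : ∀ c : E n, Measurable fun x => GG b l c (Ψ x) := by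
    intro c
    have h := h1.comp (measurable_prodMk_left (x := c))
    exact h
  have h8 : ∀ c : E n, Bd (reg b Ψ c) (fun x => GG b l c (Ψ x)) := by
    intro c
    refine ⟨h7 c, ⟨M * K, h2 c⟩, ?_⟩
    exact zGG hcs c
  have h9 : ∀ c : E n, Bd A (fun x => GG b l c (Ψ x)) := by
    intro c
    refine ⟨h7 c, ⟨M * K, h2 c⟩, ?_⟩
    intro x hx
    exact zGG hcs c x fun hr => hx (h6 c hr)
  have h10 : ∀ c : E n, reg b Ψ c ⊆ {x | Ψ x ≠ 0} := by
    intro c x hx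
    exact hx.1
  exact ⟨h1, ⟨M * K, h2⟩, fun c => ⟨h8 c, h9 c⟩, h4, fun c => ⟨h5 c, h10 c, h6 c⟩⟩

end Pool.Agent.H81.LK
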